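import Pool.Agent.KS6_95.RG.Plus

/-!
# MP_bfacb1_co: the set of colour counts of proper colourings without a rainbow copy can have
arbitrarily long gaps
-/

set_option autoImplicit false

namespace Pool.Agent.Results.MP_bfacb1_co.LongGaps

/-- `c` is a proper edge colouring of `G`: distinct edges of `G` that share a vertex get different
colours (the values of `c` outside the edge set of `G` play no role). -/
def IsProper {W : Type} (G : SimpleGraph W) (c : Sym2 W → ℕ) : Prop :=
  ∀ e ∈ G.edgeSet, ∀ e' ∈ G.edgeSet, e ≠ e' → (∃ v, v ∈ e ∧ v ∈ e') → c e ≠ c e'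

/-- `G` contains a copy of `H` (given by an injective map `f` of the vertices that sends edges of `H` to
edges of `G`) whose edges get pairwise distinct colours under `c`. -/
def HasRainbow {V W : Type} (H : SimpleGraph V) (G : SimpleGraph W) (c : Sym2 W → ℕ) : Prop :=
  ∃ f : V → W, Function.Injective f ∧ (∀ u v, H.Adj u v → G.Adj (f u) (f v)) ∧
    Set.InjOn (fun e => c (e.map f)) H.edgeSet

/-- The set of all `k ≥ 1` such that `G` has a proper edge colouring which uses exactly `k` colours and
has no rainbow copy of `H`. -/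
def K {V W : Type} (G : SimpleGraph W) (H : SimpleGraph V) : Set ℕ :=
  {k | 1 ≤ k ∧ ∃ c : Sym2 W → ℕ, IsProper G c ∧ (c '' G.edgeSet).ncard = k ∧
    ¬ HasRainbow H G c}

open Pool.Agent.V11134.RB Pool.Agent.KS6_95.RG

theorem K_eq {V W : Type} (G : SimpleGraph W) (H : SimpleGraph V) :
    K G H = {k | 1 ≤ k ∧ ∃ c : Sym2 W → ℕ, Pool.Agent.V11134.RB.IsProper G c ∧
      numColours G c = k ∧ ¬ Pool.Agent.V11134.RB.HasRainbow H G c} := rfl

/-- **Theorem.** For every `m` there are finite graphs `G`, `H` and integers `a`, `c` with `a + m < c`,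
`a ∈ K(G, H)` and `c ∈ K(G, H)` such that none of `a + 1, …, a + m` belongs to `K(G, H)`. -/
theorem result : ∀ m : ℕ, ∃ (V W : Type) (_ : Fintype V) (_ : Fintype W) (H : SimpleGraph V)
    (G : SimpleGraph W) (a c : ℕ), a + m < c ∧ a ∈ K G H ∧ c ∈ K G H ∧
      ∀ b : ℕ, a < b → b ≤ a + m → b ∉ K G H := by
  classical
  intro m
  obtain ⟨W, hW, G, hall, c1, hc1, hno⟩ := core m 1 le_rfl
  set H := guest (10 * (4 * (m + 1))) (1 + 1) with hH
  have hHconn : H.Connected := guest_connected _ _
  have t1 : H.Adj .root .al := guest_adj.2 (Or.inl trivial)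
  have t2 : H.Adj .root .be := guest_adj.2 (Or.inl trivial)
  have t3 : H.Adj .al .be := guest_adj.2 (Or.inl trivial)
  -- an optimal colouring of the host
  set d := chromaticIndex G with hd
  have hne : {n | ∃ c : Sym2 W → ℕ, Pool.Agent.V11134.RB.IsProper G c ∧
      numColours G c = n}.Nonempty := ⟨_, c1, hc1, rfl⟩
  obtain ⟨c0, hc0, hnum0⟩ : d ∈ {n | ∃ c : Sym2 W → ℕ, Pool.Agent.V11134.RB.IsProper G c ∧
      numColours G c = n} := Nat.sInf_mem hne
  have hHle : H.edgeSet.ncard ≤ d := by
    have := (hall c0 hc0 (by omega)).le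
    omega
  have hHpos : 1 ≤ H.edgeSet.ncard := by
    have hmem : s(GV.root, GV.al) ∈ H.edgeSet := t1
    exact (Set.ncard_pos (Set.toFinite _)).2 ⟨_, hmem⟩
  set e := d + 1 - H.edgeSet.ncard with he
  have hplus := le_ncard_plusGuest H e
  obtain ⟨L, hL⟩ : ∃ L, L = (m + 1) * (d + 1) + 1 := ⟨_, rfl⟩
  -- the last colouring uses many colours
  have hlast : d + m < numColours (plusHost G L d) (plusCol c1 (fun i : Fin d => i.val)) := by
    by_contra hlt
    rw [not_lt] at hlt
    have h1 := numColours_restr_le (G := G) (L := L) (plusCol c1 (fun i : Fin d => i.val)) true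
    rw [restr_plusCol] at h1
    exact hno (hall c1 hc1 (by omega))
  refine ⟨_, _, inferInstance, inferInstance, plusGuest H e, plusHost G L d, d,
    numColours (plusHost G L d) (plusCol c1 (fun i : Fin d => i.val)), hlast, ?_, ?_, ?_⟩
  · -- `d` colours
    rw [K_eq]
    refine ⟨by omega, ?_⟩
    have hfin : (c0 '' G.edgeSet).Finite := (Set.toFinite _).image _
    have hcard : hfin.toFinset.card = d := by
      rw [← hnum0]
      exact (Set.ncard_eq_toFinset_card _ hfin).symm
    let e0 : Fin d ≃ {q // q ∈ hfin.toFinset} :=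
      (Fintype.equivFinOfCardEq (by simpa using hcard)).symm
    have hs0 : Function.Injective (fun i => (e0 i).1) := fun i j h =>
      e0.injective (Subtype.ext h)
    have hsub : (plusCol (L := L) c0 (fun i => (e0 i).1)) ''
        (plusHost G L d).edgeSet ⊆ c0 '' G.edgeSet := by
      rintro _ ⟨x, hx, rfl⟩
      induction x using Sym2.ind with
      | _ u v =>
        rcases u with ⟨b, u⟩ | ⟨l, u⟩ <;> rcases v with ⟨b', v⟩ | ⟨l', v⟩
        · exact ⟨s(u, v), hx.2, rfl⟩
        · exact hx.elim
        · exact hx.elim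
        · obtain ⟨-, h2⟩ := hx
          rcases u with _ | i <;> rcases v with _ | j
          · simp at h2
          · exact hfin.mem_toFinset.1 (e0 j).2
          · exact hfin.mem_toFinset.1 (e0 i).2
          · simp at h2
    refine ⟨plusCol c0 (fun i => (e0 i).1), isProper_plusCol hc0 hs0, ?_, ?_⟩
    · apply le_antisymm
      · exact (Set.ncard_le_ncard hsub hfin).trans hnum0.le
      · have h1 := numColours_restr_le (G := G) (L := L)
          (plusCol c0 (fun i => (e0 i).1)) true
        rw [restr_plusCol] at h1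
        omega
    · intro hr
      have h1 := hr.le
      have h2 : numColours (plusHost G L d) (plusCol (L := L) c0 (fun i => (e0 i).1)) ≤ d :=
        (Set.ncard_le_ncard hsub hfin).trans hnum0.le
      omega
  · -- many colours
    rw [K_eq]
    refine ⟨by omega, _, isProper_plusCol hc1 (fun i j h => Fin.ext h), rfl, ?_⟩
    intro hr
    obtain ⟨b, hb⟩ := rainbow_of_plus hHconn t1 t2 t3 hr
    rw [restr_plusCol] at hb
    exact hno hb
  · -- every colouring with `d + j` colours has a rainbow copy
    intro b hb1 hb2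
    rw [K_eq]
    rintro ⟨-, c, hc, hnum, hnr⟩
    obtain ⟨j, rfl⟩ : ∃ j, b = d + j := ⟨b - d, by omega⟩
    refine hnr (plus_rainbow' (j := j) (by omega) ?_ hc hnum (fun b => ?_))
    · rw [hL]
      have : (j + 1) * (d + 1) ≤ (m + 1) * (d + 1) := Nat.mul_le_mul_right _ (by omega)
      omega
    · refine hall _ (isProper_restr hc b) ?_
      have := numColours_restr_le (G := G) c b
      omega

end Pool.Agent.Results.MP_bfacb1_co.LongGaps
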